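import Mathlib

set_option autoImplicit false
set_option maxHeartbeats 400000

open Filter Topology Finset
open scoped ENNReal

namespace Pool.Agent.Results.MP_ec348e_an.Vague

/-- integral of `φ` against the finitely supported measure `ν` -/
noncomputable def pair {G : Type} (ν : MonoidAlgebra ℂ G) (φ : G → ℂ) : ℂ :=
  ν.coeff.sum fun g c => c * φ g

/-- Cesàro mean `(a + a^2 + ... + a^n) / n` -/
noncomputable def ces {A : Type} [Ring A] [Algebra ℂ A] (a : A) (n : ℕ) : A :=
  (n : ℂ)⁻¹ • ∑ k ∈ range n, a ^ (k + 1)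

/-- vague ergodicity on a discrete group -/
def VE {G : Type} [Group G] (μ : MonoidAlgebra ℂ G) : Prop :=
  ∃ ν : MonoidAlgebra ℂ G, ∀ φ : G → ℂ, Tendsto φ cofinite (𝓝 0) →
    Tendsto (fun n => pair (ces μ n) φ) atTop (𝓝 (pair ν φ))

/-- mean ergodicity -/
def ME {E : Type} [NormedAddCommGroup E] [NormedSpace ℂ E] (T : E →L[ℂ] E) : Prop :=
  ∃ P : E →L[ℂ] E, ∀ f, Tendsto (fun n => ces T n f) atTop (𝓝 (P f))

/-- `ℓ^p(G)` -/
abbrev L (G : Type) (p : ℝ≥0∞) : Type := lp (fun _ : G => ℂ) p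

/-- `T` is the convolution operator by `μ` -/
def IsConv {G : Type} [Group G] {p : ℝ≥0∞} (μ : MonoidAlgebra ℂ G) (T : L G p → L G p) : Prop :=
  ∀ f x, T f x = pair μ fun y => f (y⁻¹ * x)

section
variable {G : Type} [Group G] (p : ℝ≥0∞) [Fact (1 ≤ p)] (hp : 0 < p.toReal)

noncomputable def tr (g : G) : L G p →L[ℂ] L G p := LinearMap.mkContinuous
  { toFun := fun f => ⟨fun x => f (g⁻¹ * x), memℓp_gen
      ((Equiv.mulLeft g⁻¹).summable_iff.2 ((lp.memℓp f).summable hp))⟩
    map_add' := fun _ _ => rfl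
    map_smul' := fun _ _ => rfl } 1 fun f => by
      rw [one_mul, lp.norm_eq_tsum_rpow hp, lp.norm_eq_tsum_rpow hp]
      exact (congrArg (· ^ (1 / p.toReal))
        ((Equiv.mulLeft g⁻¹).tsum_eq fun x => ‖f x‖ ^ p.toReal)).le

noncomputable def lam : MonoidAlgebra ℂ G →ₐ[ℂ] (L G p →L[ℂ] L G p) := MonoidAlgebra.lift ℂ _ G
  { toFun := tr p hp
    map_one' := by ext f x; change f _ = f _; simp
    map_mul' := fun a b => by ext f x; change f _ = f _; simp [mul_assoc] }

noncomputable def B (φ : G → ℂ) : MonoidAlgebra ℂ G →ₗ[ℂ] ℂ :=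
  Finsupp.linearCombination ℂ φ ∘ₗ (MonoidAlgebra.coeffLinearEquiv ℂ).toLinearMap

omit [Group G] in
theorem B_eq (φ : G → ℂ) (ν : MonoidAlgebra ℂ G) : pair ν φ = B φ ν := rfl

omit [Group G] in
theorem B_s (φ : G → ℂ) (g : G) (c : ℂ) : B φ (MonoidAlgebra.single g c) = c * φ g := by
  simp [B]

theorem conv (μ : MonoidAlgebra ℂ G) : IsConv μ (lam p hp μ) := fun f x => by
  rw [B_eq]
  induction μ using MonoidAlgebra.induction_linear with
  | zero => simp
  | add a b h1 h2 => rw [map_add, map_add, ← h1, ← h2]; rfl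
  | single g c => rw [B_s, lam, MonoidAlgebra.lift_single]; rfl
end

abbrev G := Multiplicative ℤ × Equiv.Perm (Fin 3)
abbrev A := MonoidAlgebra ℂ G
def t : G := (Multiplicative.ofAdd 1, 1)
def a : G := (1, Equiv.swap 0 1)
def b : G := (1, Equiv.swap 1 2)
noncomputable def s : A := .single t 1
noncomputable def N : A := (1 - .single a 1) * .single b 1 * (1 + .single a 1)

theorem N2 : N * N = 0 := by
  have : (1 + .single a 1) * (1 - .single a 1) = (0 : A) := by
    rw [add_mul, one_mul, mul_sub, mul_one, MonoidAlgebra.single_mul_single,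
      show a * a = 1 by decide, one_mul, ← MonoidAlgebra.one_def]; abel
  unfold N
  rw [mul_assoc, ← mul_assoc (1 + _), ← mul_assoc (1 + _), this]; simp

theorem cs (ν : A) : Commute s ν := by
  induction ν using MonoidAlgebra.induction_linear with
  | zero => simp
  | add a b h1 h2 => exact h1.add_right h2
  | single g c => simp [Commute, SemiconjBy, s, t, Prod.mul_def, mul_comm]

theorem pw (k : ℕ) : (s + (s - 1) * N) ^ (k + 1) =
    s ^ (k + 1) + (((k + 1 : ℕ) : ℂ) • s ^ (k + 1) - (k : ℂ) • s ^ k - s ^ k) * N := by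
  induction k with
  | zero => simp
  | succ k ih =>
    have h : N * ((s - 1) * N) = 0 := by
      rw [← mul_assoc, ← ((cs N).sub_left (Commute.one_left N)).eq, mul_assoc, N2, mul_zero]
    rw [pow_succ, ih, add_mul, mul_assoc, mul_add N, h, add_zero, ← (cs N).eq, mul_add,
      ← mul_assoc, ← mul_assoc, add_assoc, ← add_mul]
    congr 2
    simp only [sub_mul, mul_sub, smul_mul_assoc, ← pow_succ, mul_one]
    push_cast; module

theorem ce (n : ℕ) (hn : n ≠ 0) (φ : G → ℂ) : pair (ces (s + (s - 1) * N) n) φ =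
    (n : ℂ)⁻¹ * ∑ k ∈ range n, B φ (s ^ (k + 1) * 1) + B φ (s ^ n * N) -
      (n : ℂ)⁻¹ * ∑ k ∈ range n, B φ (s ^ k * N) := by
  have : (n : ℂ) ≠ 0 := by exact_mod_cast hn
  rw [B_eq, ces, sum_congr rfl fun k _ => pw k, sum_add_distrib, ← sum_mul, sum_sub_distrib,
    sum_range_sub fun k => (k : ℂ) • s ^ k]
  simp only [sub_mul, sum_mul, map_smul, map_add, map_sub, map_sum, smul_mul_assoc, smul_eq_mul, mul_one]
  field_simp; simp; ring

theorem esc (φ : G → ℂ) (h : Tendsto φ cofinite (𝓝 0)) (ν : A) :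
    Tendsto (fun k => B φ (s ^ k * ν)) atTop (𝓝 0) := by
  induction ν using MonoidAlgebra.induction_linear with
  | zero => simp
  | add a b h1 h2 => simpa [mul_add] using h1.add h2
  | single g c =>
    have := (h.comp (Function.Injective.tendsto_cofinite (f := fun k : ℕ => t ^ k * g) fun i j e => by
      simpa [t, ← ofAdd_nsmul] using e)).const_mul c
    rw [Nat.cofinite_eq_atTop] at this
    simpa [s, B_s] using this

theorem vg (φ : G → ℂ) (h : Tendsto φ cofinite (𝓝 0)) :
    Tendsto (fun n => pair (ces (s + (s - 1) * N) n) φ) atTop (𝓝 0) := by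
  have := ((((esc φ h 1).comp (tendsto_add_atTop_nat 1)).cesaro_smul).add (esc φ h N)).sub
    (esc φ h N).cesaro_smul
  simp only [add_zero, sub_zero] at this
  refine this.congr' (eventually_atTop.2 ⟨1, fun n hn => ?_⟩)
  simp only [ce n (by omega)]
  simp

theorem result : ∃ (G : Type) (_ : Group G) (_ : Countable G) (μ : MonoidAlgebra ℂ G), VE μ ∧
    ∀ (p : ℝ≥0∞) [Fact (1 ≤ p)], 1 < p → p ≠ ⊤ → ∃ T : L G p →L[ℂ] L G p, IsConv μ T ∧ ¬ ME T := by
  refine ⟨G, inferInstance, inferInstance, s + (s - 1) * N, ⟨0, fun φ h => by simpa [pair] using vg φ h⟩,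
    fun p _ h1 h2 => ?_⟩
  have hp : 0 < p.toReal := ENNReal.toReal_pos (by rintro rfl; simp at h1) h2
  refine ⟨lam p hp _, conv p hp _, ?_⟩
  rintro ⟨P, hP⟩
  have e : ∀ n x, ces (lam p hp (s + (s - 1) * N)) n (lp.single p 1 1) x =
      pair (ces (s + (s - 1) * N) n) (Pi.single x 1) := fun n x => by
    rw [show ces (lam p hp (s + (s - 1) * N)) n = lam p hp (ces (s + (s - 1) * N) n) by
      simp only [ces, map_smul, map_sum, map_pow], conv]
    congr 1; funext y
    simp [lp.single_apply, Pi.single_apply, inv_mul_eq_one]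
  have h3 := hP (lp.single p 1 1)
  have p0 : p ≠ 0 := by rintro rfl; simp at h1
  have h4 : P (lp.single p 1 1) = 0 := lp.ext (funext fun x => by
    have a1 := ((lp.uniformContinuous_coe.continuous.tendsto _).comp h3)
    have a2 := (tendsto_pi_nhds.1 a1 x).congr (e · x)
    exact tendsto_nhds_unique a2 (vg _ (tendsto_const_nhds.congr' (by
      filter_upwards [(Set.finite_singleton x).compl_mem_cofinite] with y hy
      exact (Pi.single_eq_of_ne (M := fun _ => ℂ) hy _).symm))))
  rw [h4, tendsto_zero_iff_norm_tendsto_zero] at h3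
  obtain ⟨n, h5, h6⟩ := ((h3.eventually (gt_mem_nhds one_pos)).and (eventually_ge_atTop 1)).exists
  have h7 := (lp.norm_apply_le_norm p0 _ (t ^ n * b)).trans_lt h5
  have h8 : ∀ k, B (Pi.single (t ^ n * b) 1) (s ^ k * N) = if k = n then 1 else 0 := fun k => by
    simp only [N, s, MonoidAlgebra.one_def, MonoidAlgebra.single_pow, sub_mul, mul_sub, mul_add,
      MonoidAlgebra.single_mul_single, map_add, map_sub, B_s, Pi.single_apply]
    simp +decide [t, a, b, ← ofAdd_nsmul, Prod.ext_iff]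
  have h9 : ∀ k, B (Pi.single (t ^ n * b) 1) (s ^ k * 1) = 0 := fun k => by
    simp +decide [s, B_s, Pi.single_apply, t, b, Prod.ext_iff]
  rw [e, ce n (by omega)] at h7
  simp only [h8, h9] at h7
  simp at h7

end Pool.Agent.Results.MP_ec348e_an.Vague
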